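import Pool.Agent.Lib.MP_b5021c_nt.IfaceOF
import Pool.Agent.Lib.MP_b5021c_nt.KE.H96.Ray
import Pool.Agent.Lib.MP_b5021c_nt.B.H63.Mvc

/-!
# Board b5, row OF_DAT: the data of the load of type B of a normalised ray
-/

namespace Pool.Agent.B5.OF40

open scoped LaurentPolynomial
open Polynomial
open Pool.Agent.B5
open Pool.Agent.B5.Nr.Sch (Loc)
open Pool.Agent.MP_b5021c_nt (nz)

theorem cpz_aeval (p : ℤ[X]) (z : ℂ) : (cpz p).eval z = aeval z p := KE.ev_map p z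

theorem ldz_of {q f : ℤ[X]} {a : ℝ} (h : Loc q f a) : LDz q f := by
  refine ⟨?_, ?_, ?_, ?_⟩
  · rw [h.q0]
    norm_num
  · have h2 : (cpz q).roots.filter (fun z => ‖z‖ < 1) = {(a : ℂ)} := KE.roots_loc h
    unfold nz
    rw [h2]
    rfl
  · intro z hz
    rw [cpz_aeval]
    exact KE.q_ne h z hz
  · intro z hz
    rw [cpz_aeval, cpz_aeval]
    exact h.le z hz

theorem norm_emb (k : ℤ) (h : |k| = 1) : ‖(Coef.emb k : ℂ)‖ = 1 := by
  have h1 : (Coef.emb k : ℂ) = ((k : ℤ) : ℂ) := eq_intCast _ k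
  rw [h1, Complex.norm_intCast, ← Int.cast_abs, h, Int.cast_one]

theorem roots_one {T' : ℝ} (hT' : 1 < |T'|) {s : ℂ[X]} (hs : ZF s) :
    ((1 - C (T' : ℂ) * X) * s).roots.filter (fun x => ‖x‖ < 1) = {((T' : ℂ))⁻¹} := by
  have hT0 : (T' : ℂ) ≠ 0 := by
    intro h
    have h1 : T' = 0 := by exact_mod_cast h
    rw [h1, abs_zero] at hT'
    linarith
  have hs0 : s ≠ 0 := by
    rintro rfl
    exact hs 0 (by simp) (by simp)
  have hl : (1 - C (T' : ℂ) * X : ℂ[X]) = C (-(T' : ℂ)) * (X - C ((T' : ℂ))⁻¹) := by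
    rw [mul_sub, ← C_mul, neg_mul, mul_inv_cancel₀ hT0, C_neg, C_neg, C_1]
    ring
  have hl0 : (1 - C (T' : ℂ) * X : ℂ[X]) ≠ 0 := by
    rw [hl]
    exact mul_ne_zero (C_ne_zero.mpr (neg_ne_zero.mpr hT0)) (X_sub_C_ne_zero _)
  rw [roots_mul (mul_ne_zero hl0 hs0), hl, roots_C_mul _ (neg_ne_zero.mpr hT0), roots_X_sub_C,
    Multiset.filter_add]
  have h1 : s.roots.filter (fun x => ‖x‖ < 1) = 0 := by
    rw [Multiset.filter_eq_nil]
    intro z hz hz1
    exact hs z hz1 ((mem_roots hs0).mp hz)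
  have h2 : ‖((T' : ℂ))⁻¹‖ < 1 := by
    rw [norm_inv, Complex.norm_real, Real.norm_eq_abs]
    exact inv_lt_one_of_one_lt₀ hT'
  rw [h1, add_zero, Multiset.filter_singleton, if_pos h2]

/-- (OF_DAT) -/
theorem odt (hCz : CzaS) : OdtS := by
  intro P L _ _ _ _ _ phi D S q f e a hD hS hR
  have hLD : LDz q f := ldz_of hR.loc
  have hld : (ld e 1 : RO ℤ) * D.coeff S = toLaurent (X * f) := by
    have h1 := KE.ld_S hR 1
    rw [pow_one] at h1
    exact_mod_cast h1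
  have hV : D.coeff 0 + (ld e 1 : RO ℤ) * D.coeff S = toLaurent (q + X * f) := by
    rw [hld, hR.D0, map_add]
  obtain ⟨T', s, W, hC⟩ := hCz q f hLD
  have hv0 : ‖(Coef.emb ((q + X * f).coeff 0) : ℂ)‖ = 1 := by
    apply norm_emb
    rw [coeff_add, mul_coeff_zero, coeff_X_zero, zero_mul, add_zero]
    exact hLD.q0
  have hv : (q + X * f).map (Coef.emb : ℤ →+* ℂ) = (1 - C (T' : ℂ) * X) * s := hC.v
  have hVT : D.coeff 0 + (ld e 1 : RO ℤ) * D.coeff S =
      LaurentPolynomial.T 0 * toLaurent (q + X * f) := by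
    rw [hV, LaurentPolynomial.T_zero, one_mul]
  refine ⟨hLD, hR.loc.q0, ?_, KE.classP_q hR, ?_, ?_, ?_, T', s, W, hC, ?_, ?_⟩
  · have h1 : (a : ℂ) ∈ (q.map (Coef.emb : ℤ →+* ℂ)).roots.filter (fun x => ‖x‖ < 1) := by
      rw [KE.roots_loc hR.loc]
      exact Multiset.mem_singleton_self _
    have h2 := (Multiset.mem_filter.mp h1).1
    have h3 : (q.map (Coef.emb : ℤ →+* ℂ)) ≠ 0 := by
      intro h0
      rw [h0, roots_zero] at h2
      exact absurd h2 (Multiset.notMem_zero _)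
    exact (mem_roots h3).mp h2
  · rw [hR.D0, LaurentPolynomial.T_zero, one_mul]
  · rw [hld, LaurentPolynomial.T_zero, one_mul]
  · have h1 := KE.V0_ne hR (k := 1) le_rfl
    exact_mod_cast h1
  · intro hT1
    refine ⟨hT1, 0, q + X * f, hVT, hv0, ((T' : ℂ))⁻¹, ?_, ?_⟩
    · rw [norm_inv, Complex.norm_real, Real.norm_eq_abs]
    · rw [hv]
      exact roots_one hT1 hC.zf
  · intro hT1
    have hCV : ClassV 1 (D.coeff 0 + (ld e 1 : RO ℤ) * D.coeff S) := by
      refine ⟨le_rfl, 0, q + X * f, hVT, hv0, ?_⟩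
      intro z hz
      rw [hv, eval_mul]
      refine mul_ne_zero ?_ (hC.zf z hz)
      intro h2
      rw [eval_sub, eval_one, eval_mul, eval_C, eval_X, sub_eq_zero] at h2
      have h3 := congrArg norm h2
      rw [norm_one, norm_mul, Complex.norm_real, Real.norm_eq_abs, hT1, one_mul] at h3
      linarith
    exact ((H63.mvc ℤ).1 1 _ hCV).2

end Pool.Agent.B5.OF40
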